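import Pool.Agent.Lib.MP_c2c03e_al.Step

namespace Pool.Agent.Results.MP_c2c03e_al.Gap

open Pool.Agent.Lib.MP_c2c03e_al

/-- Spectral gap for stable reflection length in every finitely generated Coxeter group. -/
theorem result {B W : Type*} [Finite B] [Group W] {M : CoxeterMatrix B}
    (cs : CoxeterSystem M W) :
    ∃ C : ℝ, 0 < C ∧ ∀ w : W, ∃ L : ℝ,
      Filter.Tendsto (fun n : ℕ => (rl cs (w ^ n) : ℝ) / (n : ℝ)) Filter.atTop (nhds L) ∧
        (L = 0 ∨ C < L) := by
  classical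
  have := Fintype.ofFinite B
  obtain ⟨C, hC, h⟩ := gap cs
  exact ⟨C, hC, fun w => ⟨srl cs w, tendsto_srl cs w, h w⟩⟩

end Pool.Agent.Results.MP_c2c03e_al.Gap
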