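import Pool.Agent.Lib.MP_c2c03e_al.Scl.Main

namespace Pool.Agent.Results.MP_c2c03e_al.SclGap

open Pool.Agent.Lib.MP_c2c03e_al Pool.Agent.Lib.MP_c2c03e_al.Scl

/-- Spectral gap for stable commutator length in every finitely generated Coxeter group. -/
theorem result {B W : Type*} [Finite B] [Group W] {M : CoxeterMatrix B}
    (cs : CoxeterSystem M W) :
    ∃ C : ℝ, 0 < C ∧ ∀ w : W, w ^ 2 ∈ commutator W ∧ ∃ L : ℝ,
      Filter.Tendsto (fun n : ℕ => (cl (w ^ (2 * n)) : ℝ) / (2 * (n : ℝ))) Filter.atTop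
        (nhds L) ∧ (L = 0 ∨ C < L) := by
  classical
  have := Fintype.ofFinite B
  obtain ⟨C, hC, h⟩ := gap_sc cs
  refine ⟨C / 2, by positivity, fun w => ⟨(pc_sq cs w).mem, sc2 cs w / 2, ?_, ?_⟩⟩
  · refine ((tendsto_sc2 cs w).div_const 2).congr fun n => ?_
    rw [div_div, mul_comm (n : ℝ) 2]
  · rcases h w with h | h
    · left
      have h1 := sc2_le_srl cs w
      have h2 := sc2_nonneg cs w
      linarith
    · right
      linarith

end Pool.Agent.Results.MP_c2c03e_al.SclGap
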